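import Pool.Agent.Lib.MP_c2693b_gt.Defs
import Pool.Agent.Lib.MP_c2693b_gt.Top

open scoped Manifold ContDiff
open Pool.Agent.Lib.MP_c2693b_gt

namespace Pool.Agent.Results.MP_c2693b_gt.NoSmoothing

theorem result : ∃ (n : ℕ) (M : Type) (_ : MetricSpace M) (_ : CompactSpace M) (_ : Nonempty M)
    (_ : ChartedSpace (Euc n) M) (_ : IsManifold (𝓡 n) ∞ M),
    LocallyCATneg M ∧ SphereBdry M n ∧ ¬ HasNPCSmoothing M := main

end Pool.Agent.Results.MP_c2693b_gt.NoSmoothing
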